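import Mathlib

set_option autoImplicit false

namespace Pool.Agent.Results.MP_e93574_an.FixedPoint

open Set Filter Topology NNReal

/-- The class Gamma. -/
structure InGamma (γ : ℝ≥0 → ℝ≥0) : Prop where
  cont : Continuous γ
  mono : Monotone γ
  subadd : ∀ s t, γ (s + t) ≤ γ s + γ t
  zero : γ ⁻¹' {0} = {0}

/-- The class A. -/
def InA (θ : ℝ≥0 → ℝ≥0) : Prop :=
  ∃ ε₀ : ℝ≥0, 0 < ε₀ ∧ ∃ γ : ℝ≥0 → ℝ≥0, InGamma γ ∧ ∀ t, θ t ≤ ε₀ → γ t ≤ θ t

lemma gamma_nsmul {γ : ℝ≥0 → ℝ≥0} (h : InGamma γ) (t : ℝ≥0) (n : ℕ) : γ (n * t) ≤ n * γ t := by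
  induction n with
  | zero =>
    have : (0 : ℝ≥0) ∈ γ ⁻¹' {0} := by rw [h.zero]; rfl
    simpa using this
  | succ n ih =>
    push_cast
    rw [add_mul, add_mul, one_mul, one_mul]
    exact (h.subadd _ _).trans (by gcongr)

lemma linear_lower {θ : ℝ≥0 → ℝ≥0} (h : InA θ) (R : ℝ≥0) (hR : 0 < R) :
    ∃ κ : ℝ, 0 < κ ∧ κ ≤ 1 ∧ ∀ t : ℝ≥0, t ≤ R → κ * t ≤ θ t := by
  obtain ⟨ε₀, hε, γ, hγ, H⟩ := h
  have hγR : 0 < γ R := by
    rw [pos_iff_ne_zero]
    intro h0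
    have : R ∈ γ ⁻¹' {0} := h0
    rw [hγ.zero] at this
    exact hR.ne' this
  have hR' : (0 : ℝ) < R := hR
  have hε' : (0 : ℝ) < ε₀ := hε
  have hγR' : (0 : ℝ) < γ R := hγR
  refine ⟨min 1 (min (ε₀ / R) (γ R / (2 * R))), by positivity, min_le_left _ _, fun t ht => ?_⟩
  have ht' : (t : ℝ) ≤ R := ht
  have ht0 : (0 : ℝ) ≤ t := t.2
  by_cases h1 : θ t ≤ ε₀
  · rcases ht0.eq_or_lt with h0 | h0
    · rw [← h0, mul_zero]; exact (θ t).2
    have h2 : (γ t : ℝ) ≤ θ t := H t h1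
    have h3 : R ≤ (⌈(R : ℝ) / t⌉₊ : ℝ≥0) * t := by
      rw [← NNReal.coe_le_coe]
      push_cast
      rw [← div_le_iff₀ h0]; exact Nat.le_ceil _
    have h4 : (γ R : ℝ) ≤ ⌈(R : ℝ) / t⌉₊ * γ t := by
      exact_mod_cast (hγ.mono h3).trans (gamma_nsmul hγ t _)
    have h5 : (⌈(R : ℝ) / t⌉₊ : ℝ) ≤ 2 * (R / t) := by
      have := Nat.ceil_lt_add_one (show (0 : ℝ) ≤ R / t by positivity)
      have : 1 ≤ (R : ℝ) / t := by rw [le_div_iff₀ h0]; linarith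
      linarith
    have h6 : (γ R : ℝ) ≤ 2 * (R / t) * γ t := h4.trans (by gcongr)
    calc _ ≤ (γ R / (2 * R) : ℝ) * t := by
          gcongr; exact (min_le_right _ _).trans (min_le_right _ _)
      _ ≤ (2 * (R / t) * γ t / (2 * R) : ℝ) * t := by gcongr
      _ = γ t := by field_simp
      _ ≤ θ t := h2
  · have h2 : (ε₀ : ℝ) ≤ θ t := (not_le.1 h1).le
    calc _ ≤ (ε₀ / R : ℝ) * t := by
          gcongr; exact (min_le_right _ _).trans (min_le_left _ _)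
      _ ≤ (ε₀ / R : ℝ) * R := by gcongr
      _ = ε₀ := by field_simp
      _ ≤ θ t := h2

theorem result {X : Type*} [MetricSpace X] [CompleteSpace X] [Nonempty X]
    (θ : ℝ≥0 → ℝ≥0) (hθ : InA θ) (T : X → Set X)
    (hne : ∀ x, (T x).Nonempty) (hcl : ∀ x, IsClosed (T x))
    (hbd : ∀ x, Bornology.IsBounded (T x))
    (hT : ∀ x y, Metric.hausdorffDist (T x) (T y) ≤ dist x y - (θ (nndist x y) : ℝ)) :
    ∃ x, x ∈ T x := by
  by_contra hno
  push Not at hno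
  obtain ⟨x₀⟩ := ‹Nonempty X›
  obtain ⟨x₁, hx₁⟩ := hne x₀
  have hfin : ∀ x y, Metric.hausdorffEDist (T x) (T y) ≠ ⊤ := fun x y =>
    Metric.hausdorffEDist_ne_top_of_nonempty_of_bounded (hne x) (hne y) (hbd x) (hbd y)
  obtain ⟨κ, hκ0, hκ1, hκ⟩ := linear_lower hθ (nndist x₀ x₁ + 1) (by positivity)
  have step : ∀ p : X × X, (p.2 ∈ T p.1 ∧ dist p.1 p.2 ≤ dist x₀ x₁) →
      ∃ z, z ∈ T p.2 ∧ dist p.2 z ≤ (1 - κ / 2) * dist p.1 p.2 := by
    rintro ⟨x, y⟩ ⟨h1, h2⟩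
    simp only at h1 h2 ⊢
    have hxy : 0 < dist x y := dist_pos.2 (fun h => hno x (h ▸ h1))
    have h3 : κ * dist x y ≤ θ (nndist x y) := hκ (nndist x y) (by
      rw [← NNReal.coe_le_coe]; push_cast; linarith)
    have h4 : Metric.hausdorffDist (T x) (T y) < (1 - κ / 2) * dist x y := by
      have := hT x y
      nlinarith
    obtain ⟨z, hz, hz2⟩ := Metric.exists_dist_lt_of_hausdorffDist_lt h1 h4 (hfin x y)
    exact ⟨z, hz, hz2.le⟩
  choose! g hg using step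
  let s : ℕ → X × X := fun n => (fun p : X × X => (p.2, g p))^[n] (x₀, x₁)
  have hs : ∀ n, s (n + 1) = ((s n).2, g (s n)) := fun n => Function.iterate_succ_apply' _ _ _
  have hk0 : 0 ≤ 1 - κ / 2 := by linarith
  have hk1 : 1 - κ / 2 < 1 := by linarith
  have hinv : ∀ n, (s n).2 ∈ T (s n).1 ∧ dist (s n).1 (s n).2 ≤ dist x₀ x₁ * (1 - κ / 2) ^ n := by
    intro n
    induction n with
    | zero => exact ⟨hx₁, by simp [s]⟩
    | succ n ih =>
      have h1 : dist x₀ x₁ * (1 - κ / 2) ^ n ≤ dist x₀ x₁ :=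
        mul_le_of_le_one_right dist_nonneg (pow_le_one₀ hk0 hk1.le)
      have h2 := hg (s n) ⟨ih.1, ih.2.trans h1⟩
      rw [hs]
      refine ⟨h2.1, h2.2.trans ?_⟩
      calc _ ≤ (1 - κ / 2) * (dist x₀ x₁ * (1 - κ / 2) ^ n) := by gcongr; exact ih.2
        _ = _ := by ring
  have hcau : CauchySeq (fun n => (s n).1) := by
    refine cauchySeq_of_le_geometric (1 - κ / 2) (dist x₀ x₁) hk1 (fun n => ?_)
    rw [hs]; exact (hinv n).2
  obtain ⟨z, hz⟩ := cauchySeq_tendsto_of_complete hcau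
  have hz2 : Tendsto (fun n => (s n).2) atTop (𝓝 z) := by
    have := (tendsto_add_atTop_iff_nat 1).2 hz
    simpa only [hs] using this
  have h0 : Metric.infDist z (T z) ≤ 0 := by
    have h1 : Tendsto (fun n => dist z (s n).2 + dist (s n).1 z) atTop (𝓝 (dist z z + dist z z)) :=
      (tendsto_const_nhds.dist hz2).add (hz.dist tendsto_const_nhds)
    rw [dist_self, add_zero] at h1
    refine ge_of_tendsto' h1 (fun n => ?_)
    have h2 := Metric.infDist_le_infDist_add_dist (x := z) (y := (s n).2) (s := T z)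
    have h3 := Metric.infDist_le_hausdorffDist_of_mem (hinv n).1 (hfin (s n).1 z)
    have h4 := hT (s n).1 z
    have h5 : (0 : ℝ) ≤ θ (nndist (s n).1 z) := NNReal.coe_nonneg _
    linarith
  exact hno z (((hcl z).mem_iff_infDist_zero (hne z)).2 (le_antisymm h0 Metric.infDist_nonneg))

end Pool.Agent.Results.MP_e93574_an.FixedPoint
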